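import Mathlib

/-!
# A PFA-computable language whose syntactic convex monoid is not finitely presentable

The language is `L (a^n) = (2^(-n) + 4^(-n)) / 2` over a one-letter alphabet.
-/

namespace Pool.Agent.Results.MP_492578_lc.NotFinitelyPresentable

open Finset

/-! ### Convex monoids -/

/-- A convex monoid: a monoid with operations `x +_r y` (`cc r x y`, to be read as
`r x + (1 - r) y`, for `r ∈ [0,1]`) which satisfy the laws of convex combinations, such that the
multiplication is affine in each variable. -/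
class ConvexMonoid (M : Type) extends Monoid M where
  cc : unitInterval → M → M → M
  cc_one : ∀ x y, cc 1 x y = x
  cc_self : ∀ r x, cc r x x = x
  cc_symm : ∀ r x y, cc r x y = cc (unitInterval.symm r) y x
  cc_assoc : ∀ (r s u : unitInterval) (x y z : M),
    (s : ℝ) * (1 - r) = (1 - r * s) * u → cc s (cc r x y) z = cc (r * s) x (cc u y z)
  cc_mul : ∀ r x y z, cc r x y * z = cc r (x * z) (y * z)
  mul_cc : ∀ r x y z, z * cc r x y = cc r (z * x) (z * y)

open ConvexMonoid

/-! ### Free convex monoids -/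

/-- A finitely supported probability distribution on words. -/
def IsDist {G : Type} (f : MonoidAlgebra ℝ (FreeMonoid G)) : Prop :=
  (∀ w, 0 ≤ f.coeff w) ∧ (f.coeff.sum fun _ r => r) = 1

/-- The free convex monoid on `G`: finitely supported probability distributions on the set of
words over `G`, multiplied by convolution (the bi-affine extension of concatenation). -/
abbrev FreeCM (G : Type) : Type := {f : MonoidAlgebra ℝ (FreeMonoid G) // IsDist f}

/-- the expectation of `F` -/
noncomputable def ev {M : Type} (F : M → ℝ) (f : MonoidAlgebra ℝ M) : ℝ :=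
  f.coeff.sum fun w r => r * F w

section ev
variable {M : Type}

lemma ev_add (F : M → ℝ) (f g : MonoidAlgebra ℝ M) : ev F (f + g) = ev F f + ev F g := by
  unfold ev
  rw [MonoidAlgebra.coeff_add, Finsupp.sum_add_index' (by simp) (fun _ _ _ => add_mul _ _ _)]

lemma ev_smul (F : M → ℝ) (r : ℝ) (f : MonoidAlgebra ℝ M) : ev F (r • f) = r * ev F f := by
  unfold ev
  rw [MonoidAlgebra.coeff_smul, Finsupp.sum_smul_index' (by simp), Finsupp.mul_sum]
  simp only [smul_eq_mul, mul_assoc]

lemma ev_single (F : M → ℝ) (w : M) (r : ℝ) : ev F (MonoidAlgebra.single w r) = r * F w := by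
  unfold ev
  rw [MonoidAlgebra.coeff_single, Finsupp.sum_single_index (by simp)]

lemma ev_fun_add (F G : M → ℝ) (f : MonoidAlgebra ℝ M) :
    ev (fun w => F w + G w) f = ev F f + ev G f := by
  unfold ev
  rw [← Finsupp.sum_add]
  simp only [mul_add]

lemma ev_fun_smul (F : M → ℝ) (c : ℝ) (f : MonoidAlgebra ℝ M) :
    ev (fun w => c * F w) f = c * ev F f := by
  unfold ev
  rw [Finsupp.mul_sum]
  exact Finsupp.sum_congr fun w _ => by ring

variable [Monoid M]

lemma ev_mul_left (F : M → ℝ) (f g : MonoidAlgebra ℝ M) :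
    ev F (f * g) = ev (fun w => ev (fun v => F (w * v)) g) f := by
  induction f using MonoidAlgebra.induction_on with
  | of m =>
    rw [MonoidAlgebra.of_apply, ev_single, one_mul]
    induction g using MonoidAlgebra.induction_on with
    | of m' => rw [MonoidAlgebra.of_apply, MonoidAlgebra.single_mul_single, ev_single, ev_single]
               ring
    | add x y hx hy => rw [mul_add, ev_add, ev_add, hx, hy]
    | smul r x hx => rw [mul_smul_comm, ev_smul, ev_smul, hx]
  | add x y hx hy => rw [add_mul, ev_add, ev_add, hx, hy]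
  | smul r x hx => rw [smul_mul_assoc, ev_smul, ev_smul, hx]

lemma ev_mul_right (F : M → ℝ) (f g : MonoidAlgebra ℝ M) :
    ev F (f * g) = ev (fun v => ev (fun w => F (w * v)) f) g := by
  induction g using MonoidAlgebra.induction_on with
  | of m =>
    rw [MonoidAlgebra.of_apply, ev_single, one_mul]
    induction f using MonoidAlgebra.induction_on with
    | of m' => rw [MonoidAlgebra.of_apply, MonoidAlgebra.single_mul_single, ev_single, ev_single]
               ring
    | add x y hx hy => rw [add_mul, ev_add, ev_add, hx, hy]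
    | smul r x hx => rw [smul_mul_assoc, ev_smul, ev_smul, hx]
  | add x y hx hy => rw [mul_add, ev_add, ev_add, hx, hy]
  | smul r x hx => rw [mul_smul_comm, ev_smul, ev_smul, hx]

end ev

section free
variable {G : Type}

lemma isDist_iff (f : MonoidAlgebra ℝ (FreeMonoid G)) :
    IsDist f ↔ (∀ w, 0 ≤ f.coeff w) ∧ ev (fun _ => 1) f = 1 := by
  unfold IsDist ev
  simp only [mul_one]

lemma coeff_mul_nonneg {f g : MonoidAlgebra ℝ (FreeMonoid G)} (hf : ∀ w, 0 ≤ f.coeff w)
    (hg : ∀ w, 0 ≤ g.coeff w) (w : FreeMonoid G) : 0 ≤ (f * g).coeff w := by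
  classical
  rw [MonoidAlgebra.coeff_mul]
  refine Finset.sum_nonneg fun a _ => Finset.sum_nonneg fun b _ => ?_
  dsimp only
  split
  · exact mul_nonneg (hf a) (hg b)
  · exact le_rfl

lemma coeff_mul_ge {f g : MonoidAlgebra ℝ (FreeMonoid G)} (hf : ∀ w, 0 ≤ f.coeff w)
    (hg : ∀ w, 0 ≤ g.coeff w) (u v : FreeMonoid G) (hu : 0 < f.coeff u) (hv : 0 < g.coeff v) :
    0 < (f * g).coeff (u * v) := by
  classical
  rw [MonoidAlgebra.coeff_mul]
  refine lt_of_lt_of_le (mul_pos hu hv) ?_
  have h1 : f.coeff u * g.coeff v ≤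
      g.coeff.sum fun m₂ r₂ => if u * m₂ = u * v then f.coeff u * r₂ else 0 := by
    refine le_trans (le_of_eq ?_) (Finset.single_le_sum (fun b _ => ?_)
      (Finsupp.mem_support_iff.mpr hv.ne'))
    · simp
    · dsimp only
      split
      · exact mul_nonneg hu.le (hg b)
      · exact le_rfl
  refine h1.trans (Finset.single_le_sum (f := fun a => g.coeff.sum fun m₂ r₂ =>
      if a * m₂ = u * v then f.coeff a * r₂ else 0) (fun a _ => ?_)
      (Finsupp.mem_support_iff.mpr hu.ne'))
  refine Finset.sum_nonneg fun b _ => ?_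
  dsimp only
  split
  · exact mul_nonneg (hf a) (hg b)
  · exact le_rfl

lemma isDist_mul {f g : MonoidAlgebra ℝ (FreeMonoid G)} (hf : IsDist f) (hg : IsDist g) :
    IsDist (f * g) := by
  rw [isDist_iff] at hf hg ⊢
  refine ⟨coeff_mul_nonneg hf.1 hg.1, ?_⟩
  rw [ev_mul_left]
  simp only [hg.2, hf.2]

lemma isDist_single (w : FreeMonoid G) : IsDist (MonoidAlgebra.single w (1 : ℝ)) := by
  classical
  rw [isDist_iff]
  refine ⟨fun v => ?_, ?_⟩
  · rw [MonoidAlgebra.coeff_single, Finsupp.single_apply]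
    split <;> norm_num
  · rw [ev_single]; norm_num

lemma isDist_cc (r : unitInterval) {f g : MonoidAlgebra ℝ (FreeMonoid G)} (hf : IsDist f)
    (hg : IsDist g) : IsDist ((r : ℝ) • f + (1 - (r : ℝ)) • g) := by
  rw [isDist_iff] at hf hg ⊢
  refine ⟨fun w => ?_, ?_⟩
  · rw [MonoidAlgebra.coeff_add, MonoidAlgebra.coeff_smul, MonoidAlgebra.coeff_smul]
    have h1 := hf.1 w
    have h2 := hg.1 w
    have h3 := r.2.1
    have h4 : 0 ≤ 1 - (r : ℝ) := sub_nonneg.mpr r.2.2
    simp only [Finsupp.add_apply, Finsupp.smul_apply, smul_eq_mul]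
    positivity
  · rw [ev_add, ev_smul, ev_smul, hf.2, hg.2]; ring

noncomputable instance : ConvexMonoid (FreeCM G) where
  mul x y := ⟨x.1 * y.1, isDist_mul x.2 y.2⟩
  one := ⟨1, isDist_single 1⟩
  mul_assoc x y z := Subtype.ext (mul_assoc x.1 y.1 z.1)
  one_mul x := Subtype.ext (one_mul x.1)
  mul_one x := Subtype.ext (mul_one x.1)
  cc r x y := ⟨(r : ℝ) • x.1 + (1 - (r : ℝ)) • y.1, isDist_cc r x.2 y.2⟩
  cc_one x y := Subtype.ext (by simp)
  cc_self r x := Subtype.ext (by
    show (r : ℝ) • x.1 + (1 - (r : ℝ)) • x.1 = x.1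
    rw [← add_smul]; simp)
  cc_symm r x y := Subtype.ext (by
    show (r : ℝ) • x.1 + (1 - (r : ℝ)) • y.1 =
      ((unitInterval.symm r : unitInterval) : ℝ) • y.1 +
        (1 - ((unitInterval.symm r : unitInterval) : ℝ)) • x.1
    rw [unitInterval.coe_symm_eq, add_comm]
    simp)
  cc_assoc r s u x y z h := Subtype.ext (by
    show (s : ℝ) • ((r : ℝ) • x.1 + (1 - (r : ℝ)) • y.1) + (1 - (s : ℝ)) • z.1 =
      ((r * s : unitInterval) : ℝ) • x.1 + (1 - ((r * s : unitInterval) : ℝ)) •
        ((u : ℝ) • y.1 + (1 - (u : ℝ)) • z.1)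
    have hrs : ((r * s : unitInterval) : ℝ) = (r : ℝ) * s := rfl
    rw [hrs, smul_add, smul_add, smul_smul, smul_smul, smul_smul, smul_smul, ← h]
    have h2 : (1 - (r : ℝ) * s) * (1 - u) = 1 - s := by linarith
    rw [h2, mul_comm (s : ℝ) (r : ℝ)]
    abel)
  cc_mul r x y z := Subtype.ext (by
    show ((r : ℝ) • x.1 + (1 - (r : ℝ)) • y.1) * z.1 =
      (r : ℝ) • (x.1 * z.1) + (1 - (r : ℝ)) • (y.1 * z.1)
    rw [add_mul, smul_mul_assoc, smul_mul_assoc])
  mul_cc r x y z := Subtype.ext (by
    show z.1 * ((r : ℝ) • x.1 + (1 - (r : ℝ)) • y.1) =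
      (r : ℝ) • (z.1 * x.1) + (1 - (r : ℝ)) • (z.1 * y.1)
    rw [mul_add, mul_smul_comm, mul_smul_comm])

end free

/-! ### Congruences and finite presentability -/

/-- A congruence of convex monoids. -/
def IsCongruence {M : Type} [ConvexMonoid M] (T : M → M → Prop) : Prop :=
  Equivalence T ∧ (∀ x x' y y', T x x' → T y y' → T (x * y) (x' * y')) ∧
    ∀ (r : unitInterval) (x x' y y'), T x x' → T y y' → T (cc r x y) (cc r x' y')

/-- The congruence generated by a set of pairs. -/
def Gen {M : Type} [ConvexMonoid M] (R : Set (M × M)) (x y : M) : Prop :=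
  ∀ T : M → M → Prop, IsCongruence T → (∀ p ∈ R, T p.1 p.2) → T x y

/-- A convex monoid `M` is finitely presentable: there are a finite set `G` and a finite set `R`
of pairs such that `M` is isomorphic to the quotient of the free convex monoid on `G` by the
congruence generated by `R`, i.e. there is a surjective morphism from the free convex monoid onto
`M` whose kernel is this congruence. -/
def FinitelyPresentable (M : Type) [ConvexMonoid M] : Prop :=
  ∃ (G : Type) (_ : Finite G) (R : Set (FreeCM G × FreeCM G)), R.Finite ∧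
    ∃ q : FreeCM G → M, Function.Surjective q ∧ q 1 = 1 ∧
      (∀ x y, q (x * y) = q x * q y) ∧
      (∀ (r : unitInterval) (x y), q (cc r x y) = cc r (q x) (q y)) ∧
      ∀ x y, q x = q y ↔ Gen R x y

/-! ### Probabilistic languages and syntactic convex monoids -/

/-- A probabilistic finite automaton over the alphabet `S`. -/
structure PFA (S : Type) where
  Q : Type
  fin : Fintype Q
  init : Q → ℝ
  trans : Q → S → Q → ℝ
  out : Q → ℝ
  init_nonneg : ∀ q, 0 ≤ init q
  init_sum : ∑ q, init q = 1
  trans_nonneg : ∀ q a q', 0 ≤ trans q a q'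
  trans_sum : ∀ q a, ∑ q', trans q a q' = 1
  out_nonneg : ∀ q, 0 ≤ out q
  out_le_one : ∀ q, out q ≤ 1

/-- The distribution of the state after reading `w`, starting from the distribution `v`. -/
def PFA.run {S : Type} (A : PFA S) (v : A.Q → ℝ) (w : List S) : A.Q → ℝ :=
  letI := A.fin
  w.foldl (fun v a q' => ∑ q, v q * A.trans q a q') v

/-- The expected output on the word `w`. -/
def PFA.value {S : Type} (A : PFA S) (w : List S) : ℝ :=
  letI := A.fin
  ∑ q, A.run A.init w q * A.out q

/-- `L` is PFA-computable. -/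
def PFAComputable {S : Type} (L : FreeMonoid S → ℝ) : Prop :=
  ∃ A : PFA S, ∀ w : FreeMonoid S, A.value w.toList = L w

/-- The syntactic congruence of `L`: `x ≈ y` iff the expectations of `L(u w v)` for random `w`
distributed according to `x` and to `y` agree, for all words `u`, `v`. -/
def SynRel {S : Type} (L : FreeMonoid S → ℝ) (x y : FreeCM S) : Prop :=
  ∀ u v : FreeMonoid S, (x.1.coeff.sum fun w r => r * L (u * w * v)) =
    y.1.coeff.sum fun w r => r * L (u * w * v)

lemma synRel_iff {S : Type} (L : FreeMonoid S → ℝ) (x y : FreeCM S) :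
    SynRel L x y ↔ ∀ u v : FreeMonoid S,
      ev (fun w => L (u * w * v)) x.1 = ev (fun w => L (u * w * v)) y.1 := Iff.rfl

lemma synRel_congr {S : Type} (L : FreeMonoid S → ℝ) : IsCongruence (SynRel L) := by
  refine ⟨⟨fun x u v => rfl, fun h u v => (h u v).symm, fun h h' u v => (h u v).trans (h' u v)⟩,
    ?_, ?_⟩
  · intro x x' y y' h h'
    rw [synRel_iff] at h h' ⊢
    intro u v
    show ev _ (x.1 * y.1) = ev _ (x'.1 * y'.1)
    calc ev (fun w => L (u * w * v)) (x.1 * y.1)
        = ev (fun w => ev (fun t => L (u * (w * t) * v)) y.1) x.1 := ev_mul_left _ _ _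
      _ = ev (fun w => ev (fun t => L (u * (w * t) * v)) y'.1) x.1 := by
          congr 1
          funext w
          have := h' (u * w) v
          simpa only [mul_assoc] using this
      _ = ev (fun w => L (u * w * v)) (x.1 * y'.1) :=
          (ev_mul_left (fun w => L (u * w * v)) _ _).symm
      _ = ev (fun t => ev (fun w => L (u * (w * t) * v)) x.1) y'.1 := ev_mul_right _ _ _
      _ = ev (fun t => ev (fun w => L (u * (w * t) * v)) x'.1) y'.1 := by
          congr 1
          funext t
          have := h u (t * v)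
          simpa only [mul_assoc] using this
      _ = ev (fun w => L (u * w * v)) (x'.1 * y'.1) :=
          (ev_mul_right (fun w => L (u * w * v)) _ _).symm
  · intro r x x' y y' h h'
    rw [synRel_iff] at h h' ⊢
    intro u v
    show ev _ ((r : ℝ) • x.1 + (1 - (r : ℝ)) • y.1) = ev _ ((r : ℝ) • x'.1 + (1 - (r : ℝ)) • y'.1)
    rw [ev_add, ev_add, ev_smul, ev_smul, ev_smul, ev_smul, h, h']

/-- The setoid of the syntactic congruence. -/
def synSetoid {S : Type} (L : FreeMonoid S → ℝ) : Setoid (FreeCM S) :=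
  ⟨SynRel L, (synRel_congr L).1⟩

/-- The syntactic convex monoid `Syn(L)`. -/
def Syn {S : Type} (L : FreeMonoid S → ℝ) : Type := Quotient (synSetoid L)

noncomputable instance {S : Type} (L : FreeMonoid S → ℝ) : ConvexMonoid (Syn L) where
  mul := Quotient.map₂ (· * ·) fun _ _ h _ _ h' => (synRel_congr L).2.1 _ _ _ _ h h'
  one := Quotient.mk _ 1
  mul_assoc := by
    rintro ⟨x⟩ ⟨y⟩ ⟨z⟩
    exact congrArg (Quotient.mk _) (mul_assoc x y z)
  one_mul := by
    rintro ⟨x⟩
    exact congrArg (Quotient.mk _) (one_mul x)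
  mul_one := by
    rintro ⟨x⟩
    exact congrArg (Quotient.mk _) (mul_one x)
  cc r := Quotient.map₂ (cc r) fun _ _ h _ _ h' => (synRel_congr L).2.2 r _ _ _ _ h h'
  cc_one := by
    rintro ⟨x⟩ ⟨y⟩
    exact congrArg (Quotient.mk _) (cc_one x y)
  cc_self := by
    rintro r ⟨x⟩
    exact congrArg (Quotient.mk _) (cc_self r x)
  cc_symm := by
    rintro r ⟨x⟩ ⟨y⟩
    exact congrArg (Quotient.mk _) (cc_symm r x y)
  cc_assoc := by
    rintro r s u ⟨x⟩ ⟨y⟩ ⟨z⟩ h
    exact congrArg (Quotient.mk _) (cc_assoc r s u x y z h)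
  cc_mul := by
    rintro r ⟨x⟩ ⟨y⟩ ⟨z⟩
    exact congrArg (Quotient.mk _) (cc_mul r x y z)
  mul_cc := by
    rintro r ⟨x⟩ ⟨y⟩ ⟨z⟩
    exact congrArg (Quotient.mk _) (mul_cc r x y z)

/-! ### Morphisms from free convex monoids -/

section lift
variable {G : Type}

/-- point masses -/
noncomputable def pt (w : FreeMonoid G) : FreeCM G := ⟨MonoidAlgebra.single w 1, isDist_single w⟩

lemma pt_mul (u v : FreeMonoid G) : pt u * pt v = pt (u * v) := by
  apply Subtype.ext
  show MonoidAlgebra.single u (1 : ℝ) * MonoidAlgebra.single v (1 : ℝ) = MonoidAlgebra.single _ 1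
  rw [MonoidAlgebra.single_mul_single, mul_one]

lemma pt_one : pt (1 : FreeMonoid G) = 1 := rfl

lemma coeff_nonneg (x : FreeCM G) (w : FreeMonoid G) : 0 ≤ x.1.coeff w := x.2.1 w

lemma sum_one (x : FreeCM G) : ev (fun _ => 1) x.1 = 1 := ((isDist_iff _).mp x.2).2

lemma coeff_cc (r : unitInterval) (x y : FreeCM G) (w : FreeMonoid G) :
    (cc r x y).1.coeff w = r * x.1.coeff w + (1 - r) * y.1.coeff w := rfl

lemma ev_cc (F : FreeMonoid G → ℝ) (r : unitInterval) (x y : FreeCM G) :
    ev F (cc r x y).1 = r * ev F x.1 + (1 - r) * ev F y.1 := by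
  show ev F ((r : ℝ) • x.1 + (1 - (r : ℝ)) • y.1) = _
  rw [ev_add, ev_smul, ev_smul]

/-- every distribution is obtained from point masses by convex combinations -/
lemma cc_induction {P : FreeCM G → Prop} (hpt : ∀ w, P (pt w))
    (hcc : ∀ (r : unitInterval) (x y), P x → P y → P (cc r x y)) (x : FreeCM G) : P x := by
  classical
  have key : ∀ n : ℕ, ∀ x : FreeCM G, x.1.coeff.support.card = n → P x := by
    intro n
    induction n with
    | zero =>
      intro x hx
      exfalso
      have h0 : x.1.coeff = 0 := by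
        rw [← Finsupp.support_eq_empty, ← Finset.card_eq_zero, hx]
      have := x.2.2
      rw [h0, Finsupp.sum_zero_index] at this
      exact zero_ne_one this
    | succ n ih =>
      intro x hx
      have hne : x.1.coeff.support.Nonempty := by
        rw [← Finset.card_pos, hx]; omega
      obtain ⟨u, hu⟩ := hne
      have hsum : ∑ w ∈ x.1.coeff.support, x.1.coeff w = 1 := x.2.2
      rw [← Finset.add_sum_erase _ _ hu] at hsum
      have hrest : 0 ≤ ∑ w ∈ x.1.coeff.support.erase u, x.1.coeff w :=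
        Finset.sum_nonneg fun w _ => coeff_nonneg x w
      have hupos : 0 < x.1.coeff u := lt_of_le_of_ne (coeff_nonneg x u)
        (Finsupp.mem_support_iff.mp hu).symm
      rcases eq_or_lt_of_le hrest with hz | hpos
      · -- `x` is a point mass
        have hall : ∀ w, w ≠ u → x.1.coeff w = 0 := by
          intro w hw
          by_cases hws : w ∈ x.1.coeff.support
          · exact (Finset.sum_eq_zero_iff_of_nonneg (fun v _ => coeff_nonneg x v)).mp hz.symm w
              (Finset.mem_erase.mpr ⟨hw, hws⟩)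
          · exact Finsupp.notMem_support_iff.mp hws
        have : x = pt u := by
          apply Subtype.ext
          apply MonoidAlgebra.ext
          apply Finsupp.ext
          intro w
          show _ = (MonoidAlgebra.single u (1 : ℝ)).coeff w
          rw [MonoidAlgebra.coeff_single, Finsupp.single_apply]
          split
          · next h => rw [← h]; linarith
          · next h => exact hall w (Ne.symm h)
        rw [this]
        exact hpt u
      · -- split off `u`
        set r : ℝ := x.1.coeff u with hr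
        have hr1 : r < 1 := by linarith
        have hr1' : 0 < 1 - r := by linarith
        let y : MonoidAlgebra ℝ (FreeMonoid G) :=
          ⟨(1 - r)⁻¹ • (x.1.coeff.erase u)⟩
        have hy : IsDist y := by
          constructor
          · intro w
            show 0 ≤ (1 - r)⁻¹ * (x.1.coeff.erase u) w
            rw [Finsupp.erase_apply]
            split
            · simp
            · exact mul_nonneg (inv_nonneg.mpr hr1'.le) (coeff_nonneg x w)
          · show ((1 - r)⁻¹ • (x.1.coeff.erase u)).sum (fun _ r => r) = 1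
            rw [Finsupp.sum_smul_index' (by simp)]
            have h2 : (x.1.coeff.erase u).sum (fun _ s => (1 - r)⁻¹ • s) =
                (1 - r)⁻¹ * ∑ w ∈ x.1.coeff.support.erase u, x.1.coeff w := by
              rw [Finsupp.sum, Finsupp.support_erase, Finset.mul_sum]
              refine Finset.sum_congr rfl fun w hw => ?_
              rw [Finsupp.erase_ne (Finset.ne_of_mem_erase hw), smul_eq_mul]
            rw [h2]
            have h3 : ∑ w ∈ x.1.coeff.support.erase u, x.1.coeff w = 1 - r := by linarith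
            rw [h3, inv_mul_cancel₀ hr1'.ne']
        have hx2 : x = cc ⟨r, hupos.le, hr1.le⟩ (pt u) ⟨y, hy⟩ := by
          apply Subtype.ext
          apply MonoidAlgebra.ext
          apply Finsupp.ext
          intro w
          rw [coeff_cc]
          show _ = r * (MonoidAlgebra.single u (1 : ℝ)).coeff w +
            (1 - r) * ((1 - r)⁻¹ * (x.1.coeff.erase u) w)
          rw [mul_inv_cancel_left₀ hr1'.ne', MonoidAlgebra.coeff_single, Finsupp.single_apply,
            Finsupp.erase_apply]
          by_cases h : u = w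
          · subst h; simp [hr]
          · rw [if_neg h, if_neg (Ne.symm h)]; simp
        rw [hx2]
        apply hcc _ _ _ (hpt u)
        apply ih
        show ((1 - r)⁻¹ • (x.1.coeff.erase u)).support.card = n
        rw [Finsupp.support_smul_eq (inv_ne_zero hr1'.ne'), Finsupp.support_erase,
          Finset.card_erase_of_mem hu, hx]
        rfl
  exact key _ x rfl

variable {S : Type}

/-- the algebra morphism extending a map from `G` to distributions -/
noncomputable def liftAlg (w : G → FreeCM S) :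
    MonoidAlgebra ℝ (FreeMonoid G) →ₐ[ℝ] MonoidAlgebra ℝ (FreeMonoid S) :=
  MonoidAlgebra.lift ℝ (MonoidAlgebra ℝ (FreeMonoid S)) (FreeMonoid G)
    (FreeMonoid.lift fun g => (w g).1)

lemma liftAlg_pt_isDist (w : G → FreeCM S) (u : FreeMonoid G) :
    IsDist (liftAlg w (MonoidAlgebra.single u 1)) := by
  rw [liftAlg, MonoidAlgebra.lift_single, one_smul]
  induction u using FreeMonoid.inductionOn' with
  | one => rw [map_one]; exact isDist_single 1
  | of_mul g u ih => rw [map_mul, FreeMonoid.lift_eval_of]; exact isDist_mul (w g).2 ih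

lemma liftAlg_isDist (w : G → FreeCM S) (x : FreeCM G) : IsDist (liftAlg w x.1) := by
  induction x using cc_induction with
  | hpt u => exact liftAlg_pt_isDist w u
  | hcc r x y hx hy =>
    have : (cc r x y).1 = (r : ℝ) • x.1 + (1 - (r : ℝ)) • y.1 := rfl
    rw [this, map_add, map_smul, map_smul]
    exact isDist_cc r hx hy

/-- the morphism extending a map from `G` to distributions -/
noncomputable def lft (w : G → FreeCM S) (x : FreeCM G) : FreeCM S :=
  ⟨liftAlg w x.1, liftAlg_isDist w x⟩

lemma lft_mul (w : G → FreeCM S) (x y : FreeCM G) : lft w (x * y) = lft w x * lft w y :=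
  Subtype.ext (map_mul (liftAlg w) x.1 y.1)

lemma lft_one (w : G → FreeCM S) : lft w 1 = 1 := Subtype.ext (map_one (liftAlg w))

lemma lft_cc (w : G → FreeCM S) (r : unitInterval) (x y : FreeCM G) :
    lft w (cc r x y) = cc r (lft w x) (lft w y) := by
  apply Subtype.ext
  show liftAlg w ((r : ℝ) • x.1 + (1 - (r : ℝ)) • y.1) =
    (r : ℝ) • liftAlg w x.1 + (1 - (r : ℝ)) • liftAlg w y.1
  rw [map_add, map_smul, map_smul]

lemma lft_of (w : G → FreeCM S) (g : G) : lft w (pt (FreeMonoid.of g)) = w g := by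
  apply Subtype.ext
  show liftAlg w (MonoidAlgebra.single (FreeMonoid.of g) 1) = _
  rw [liftAlg, MonoidAlgebra.lift_single, one_smul, FreeMonoid.lift_eval_of]

lemma lft_pow (w : G → FreeCM S) (x : FreeCM G) (n : ℕ) : lft w (x ^ n) = lft w x ^ n := by
  induction n with
  | zero => rw [pow_zero, pow_zero, lft_one]
  | succ n ih => rw [pow_succ, pow_succ, lft_mul, ih]

end lift

/-! ### The language -/

/-- The language `L (a^n) = (2^(-n) + 4^(-n)) / 2` over the one-letter alphabet. -/
noncomputable def Lang (w : FreeMonoid Unit) : ℝ :=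
  ((1 / 2) ^ w.toList.length + (1 / 4) ^ w.toList.length) / 2

/-- The automaton computing the language: two states, kept with probability `1/2` and `1/4` when
a letter is read, and a sink. -/
noncomputable def auto : PFA Unit where
  Q := Fin 3
  fin := inferInstance
  init := ![1 / 2, 1 / 2, 0]
  trans q _ := ![![1 / 2, 0, 1 / 2], ![0, 1 / 4, 3 / 4], ![0, 0, 1]] q
  out := ![1, 1, 0]
  init_nonneg q := by fin_cases q <;> simp
  init_sum := by simp [Fin.sum_univ_three]; norm_num
  trans_nonneg q _ q' := by fin_cases q <;> fin_cases q' <;> simp <;> norm_num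
  trans_sum q _ := by fin_cases q <;> simp [Fin.sum_univ_three] <;> norm_num
  out_nonneg q := by fin_cases q <;> simp
  out_le_one q := by fin_cases q <;> simp

lemma auto_run (a b c : ℝ) (w : List Unit) : ∃ d,
    auto.run ![a, b, c] w = ![a * (1 / 2) ^ w.length, b * (1 / 4) ^ w.length, d] := by
  induction w generalizing a b c with
  | nil =>
    refine ⟨c, ?_⟩
    show (![a, b, c] : Fin 3 → ℝ) = _
    simp
  | cons x w ih =>
    have h1 : auto.run ![a, b, c] (x :: w) =
        auto.run ![a * (1 / 2), b * (1 / 4), a * (1 / 2) + b * (3 / 4) + c] w := by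
      show auto.run (fun q' : Fin 3 => ∑ q : Fin 3, ![a, b, c] q *
        (![![1 / 2, 0, 1 / 2], ![0, 1 / 4, 3 / 4], ![0, 0, 1]] : Fin 3 → Fin 3 → ℝ) q q') w = _
      congr 1
      funext q'
      fin_cases q' <;> simp [Fin.sum_univ_three]
    obtain ⟨d, hd⟩ := ih (a * (1 / 2)) (b * (1 / 4)) (a * (1 / 2) + b * (3 / 4) + c)
    refine ⟨d, ?_⟩
    rw [h1, hd, List.length_cons, pow_succ', pow_succ', mul_assoc, mul_assoc]

lemma lang_computable : PFAComputable Lang := by
  refine ⟨auto, fun w => ?_⟩
  obtain ⟨d, hd⟩ := auto_run (1 / 2) (1 / 2) 0 w.toList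
  show (∑ q : Fin 3, auto.run ![1 / 2, 1 / 2, 0] w.toList q * (![1, 1, 0] : Fin 3 → ℝ) q) = _
  rw [hd, Fin.sum_univ_three, Lang]
  simp
  ring

/-- the length of a word -/
def len (w : FreeMonoid Unit) : ℕ := w.toList.length

lemma len_mul (u v : FreeMonoid Unit) : len (u * v) = len u + len v := by
  simp [len, FreeMonoid.toList_mul]

lemma len_inj {u v : FreeMonoid Unit} (h : len u = len v) : u = v := by
  apply FreeMonoid.toList.injective
  exact List.ext_getElem h fun _ _ _ => rfl

/-- moments -/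
noncomputable def mom (c : ℝ) (x : FreeCM Unit) : ℝ := ev (fun w => c ^ len w) x.1

lemma mom_mul (c : ℝ) (x y : FreeCM Unit) : mom c (x * y) = mom c x * mom c y := by
  unfold mom
  show ev _ (x.1 * y.1) = _
  rw [ev_mul_left]
  simp only [len_mul, pow_add, ev_fun_smul]
  have : ∀ w : FreeMonoid Unit, c ^ len w * ev (fun w => c ^ len w) y.1 =
      ev (fun w => c ^ len w) y.1 * c ^ len w := fun w => mul_comm _ _
  simp only [this, ev_fun_smul]
  ring

lemma mom_one (c : ℝ) : mom c 1 = 1 := by
  show ev _ (MonoidAlgebra.single (1 : FreeMonoid Unit) (1 : ℝ)) = 1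
  rw [ev_single]
  simp [len]

lemma mom_pow (c : ℝ) (x : FreeCM Unit) (n : ℕ) : mom c (x ^ n) = mom c x ^ n := by
  induction n with
  | zero => rw [pow_zero, pow_zero, mom_one]
  | succ n ih => rw [pow_succ, pow_succ, mom_mul, ih]

lemma mom_cc (c : ℝ) (r : unitInterval) (x y : FreeCM Unit) :
    mom c (cc r x y) = r * mom c x + (1 - r) * mom c y := ev_cc _ _ _ _

/-- the generator `a` -/
noncomputable def aa : FreeCM Unit := pt (FreeMonoid.of ())

lemma mom_aa (c : ℝ) : mom c aa = c := by
  show ev _ (MonoidAlgebra.single (FreeMonoid.of ()) (1 : ℝ)) = c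
  rw [ev_single]
  simp [len]

lemma synRel_lang (x y : FreeCM Unit) :
    SynRel Lang x y ↔ mom (1 / 2) x = mom (1 / 2) y ∧ mom (1 / 4) x = mom (1 / 4) y := by
  have key : ∀ (u v : FreeMonoid Unit) (x : FreeCM Unit), ev (fun w => Lang (u * w * v)) x.1 =
      ((1 / 2) ^ (len u + len v) * mom (1 / 2) x + (1 / 4) ^ (len u + len v) * mom (1 / 4) x) / 2 := by
    intro u v x
    have : (fun w => Lang (u * w * v)) = fun w => ((1 / 2) ^ (len u + len v) / 2) * (1 / 2) ^ len w +
        ((1 / 4) ^ (len u + len v) / 2) * (1 / 4) ^ len w := by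
      funext w
      have h : (u * w * v).toList.length = len u + len w + len v := by
        have : len (u * w * v) = len u + len w + len v := by rw [len_mul, len_mul]
        exact this
      rw [Lang, h]
      ring
    rw [this, ev_fun_add, ev_fun_smul, ev_fun_smul]
    unfold mom
    ring
  rw [synRel_iff]
  constructor
  · intro h
    have h0 := h 1 1
    have h1 := h (FreeMonoid.of ()) 1
    rw [key, key] at h0 h1
    have l0 : len 1 = 0 := rfl
    have l1 : len (FreeMonoid.of ()) = 1 := rfl
    rw [l0] at h0 h1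
    rw [l1] at h1
    constructor <;> linarith
  · rintro ⟨h1, h2⟩ u v
    rw [key, key, h1, h2]

/-! ### The separating congruence -/

/-- the elements supported on lengths `0` and `N`, and the point masses at lengths `≤ N` -/
def Zp (N : ℕ) (x : FreeCM Unit) : Prop :=
  (∀ w, 0 < x.1.coeff w → len w = 0 ∨ len w = N) ∨ ∃ j ≤ N, ∀ w, 0 < x.1.coeff w → len w = j

lemma exists_pos (x : FreeCM Unit) : ∃ w, 0 < x.1.coeff w := by
  by_contra h
  push Not at h
  have h0 : x.1.coeff = 0 := by
    apply Finsupp.ext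
    intro w
    exact le_antisymm (h w) (coeff_nonneg x w)
  have := x.2.2
  rw [h0, Finsupp.sum_zero_index] at this
  exact zero_ne_one this

lemma Zp_of_mul_left {N : ℕ} {x y : FreeCM Unit} (h : Zp N (x * y)) : Zp N x := by
  obtain ⟨s, hs⟩ := exists_pos y
  have hmul : ∀ w, 0 < x.1.coeff w → 0 < (x * y).1.coeff (w * s) := fun w hw =>
    coeff_mul_ge (coeff_nonneg x) (coeff_nonneg y) w s hw hs
  rcases h with h | ⟨j, hj, h⟩
  · by_cases hs0 : len s = 0
    · left
      intro w hw
      have := h _ (hmul w hw)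
      rw [len_mul] at this
      omega
    · by_cases hsN : len s ≤ N
      · right
        refine ⟨N - len s, by omega, fun w hw => ?_⟩
        have := h _ (hmul w hw)
        rw [len_mul] at this
        omega
      · obtain ⟨w, hw⟩ := exists_pos x
        have := h _ (hmul w hw)
        rw [len_mul] at this
        omega
  · right
    refine ⟨j - len s, by omega, fun w hw => ?_⟩
    have := h _ (hmul w hw)
    rw [len_mul] at this
    omega

lemma Zp_of_mul_right {N : ℕ} {x y : FreeCM Unit} (h : Zp N (y * x)) : Zp N x := by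
  apply Zp_of_mul_left (y := y)
  obtain h1 : ∀ w, (x * y).1.coeff w = (y * x).1.coeff w := by
    intro w
    have : x.1 * y.1 = y.1 * x.1 := by
      classical
      apply MonoidAlgebra.ext
      apply Finsupp.ext
      intro w
      rw [MonoidAlgebra.coeff_mul, MonoidAlgebra.coeff_mul, Finsupp.sum_comm]
      refine Finsupp.sum_congr fun a _ => Finsupp.sum_congr fun b _ => ?_
      have : b * a = a * b := len_inj (by rw [len_mul, len_mul, add_comm])
      rw [this, mul_comm (x.1.coeff b)]
    exact congrArg (fun f : MonoidAlgebra ℝ (FreeMonoid Unit) => f.coeff w) this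
  simpa only [Zp, h1] using h

lemma Zp_of_cc_left {N : ℕ} {r : unitInterval} {x y : FreeCM Unit} (hr : 0 < (r : ℝ))
    (h : Zp N (cc r x y)) : Zp N x := by
  have hpos : ∀ w, 0 < x.1.coeff w → 0 < (cc r x y).1.coeff w := by
    intro w hw
    rw [coeff_cc]
    have h1 := coeff_nonneg y w
    have h2 : 0 ≤ 1 - (r : ℝ) := sub_nonneg.mpr r.2.2
    positivity
  rcases h with h | ⟨j, hj, h⟩
  · exact Or.inl fun w hw => h w (hpos w hw)
  · exact Or.inr ⟨j, hj, fun w hw => h w (hpos w hw)⟩

lemma Zp_of_cc_right {N : ℕ} {r : unitInterval} {x y : FreeCM Unit} (hr : (r : ℝ) < 1)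
    (h : Zp N (cc r x y)) : Zp N y := by
  have hpos : ∀ w, 0 < y.1.coeff w → 0 < (cc r x y).1.coeff w := by
    intro w hw
    rw [coeff_cc]
    have h1 := coeff_nonneg x w
    have h2 : 0 < 1 - (r : ℝ) := sub_pos.mpr hr
    have h3 := r.2.1
    positivity
  rcases h with h | ⟨j, hj, h⟩
  · exact Or.inl fun w hw => h w (hpos w hw)
  · exact Or.inr ⟨j, hj, fun w hw => h w (hpos w hw)⟩

/-- the congruence whose classes in `Zp N` are singletons -/
def TT (N : ℕ) (x y : FreeCM Unit) : Prop := x = y ∨ (¬ Zp N x ∧ ¬ Zp N y)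

lemma cc_zero' {r : unitInterval} (hr : ¬ 0 < (r : ℝ)) (x y : FreeCM Unit) : cc r x y = y := by
  have h0 : (r : ℝ) = 0 := le_antisymm (not_lt.mp hr) r.2.1
  apply Subtype.ext
  show (r : ℝ) • x.1 + (1 - (r : ℝ)) • y.1 = y.1
  rw [h0]; simp

lemma cc_one' {r : unitInterval} (hr : ¬ (r : ℝ) < 1) (x y : FreeCM Unit) : cc r x y = x := by
  have h0 : (r : ℝ) = 1 := le_antisymm r.2.2 (not_lt.mp hr)
  apply Subtype.ext
  show (r : ℝ) • x.1 + (1 - (r : ℝ)) • y.1 = x.1
  rw [h0]; simp

lemma TT_congr (N : ℕ) : IsCongruence (TT N) := by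
  refine ⟨⟨fun x => Or.inl rfl, ?_, ?_⟩, ?_, ?_⟩
  · rintro x y (h | ⟨h1, h2⟩)
    · exact Or.inl h.symm
    · exact Or.inr ⟨h2, h1⟩
  · rintro x y z (rfl | ⟨h1, h2⟩) (rfl | ⟨h3, h4⟩)
    · exact Or.inl rfl
    · exact Or.inr ⟨h3, h4⟩
    · exact Or.inr ⟨h1, h2⟩
    · exact Or.inr ⟨h1, h4⟩
  · rintro x x' y y' (rfl | ⟨h1, h2⟩) h
    · rcases h with rfl | ⟨h3, h4⟩
      · exact Or.inl rfl
      · exact Or.inr ⟨fun h => h3 (Zp_of_mul_right h), fun h => h4 (Zp_of_mul_right h)⟩
    · exact Or.inr ⟨fun h => h1 (Zp_of_mul_left h), fun h => h2 (Zp_of_mul_left h)⟩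
  · intro r x x' y y' hx hy
    by_cases hr : 0 < (r : ℝ)
    · by_cases hr1 : (r : ℝ) < 1
      · rcases hx with rfl | ⟨h1, h2⟩
        · rcases hy with rfl | ⟨h3, h4⟩
          · exact Or.inl rfl
          · exact Or.inr ⟨fun h => h3 (Zp_of_cc_right hr1 h), fun h => h4 (Zp_of_cc_right hr1 h)⟩
        · exact Or.inr ⟨fun h => h1 (Zp_of_cc_left hr h), fun h => h2 (Zp_of_cc_left hr h)⟩
      · rw [cc_one' hr1, cc_one' hr1]; exact hx
    · rw [cc_zero' hr, cc_zero' hr]; exact hy

/-- if a nonnegative function has the same (zero) expectation then the support is contained in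
its zero set -/
lemma supp_of_ev_zero (F : FreeMonoid Unit → ℝ) (x : FreeCM Unit)
    (hF : ∀ w, 0 < x.1.coeff w → 0 ≤ F w) (h : ev F x.1 = 0) (w : FreeMonoid Unit)
    (hw : 0 < x.1.coeff w) : F w = 0 := by
  have h1 := (Finset.sum_eq_zero_iff_of_nonneg (s := x.1.coeff.support)
    (f := fun w => x.1.coeff w * F w) (fun v hv => mul_nonneg (coeff_nonneg x v) (hF v
      (lt_of_le_of_ne (coeff_nonneg x v) (Finsupp.mem_support_iff.mp hv).symm)))).mp h w
      (Finsupp.mem_support_iff.mpr hw.ne')
  exact (mul_eq_zero.mp h1).resolve_left hw.ne'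

lemma pow_eq (n : ℕ) : (1 / 4 : ℝ) ^ n = ((1 / 2 : ℝ) ^ n) ^ 2 := by
  rw [← pow_mul, mul_comm, pow_mul]; norm_num

lemma half_inj {m n : ℕ} (h : (1 / 2 : ℝ) ^ m = (1 / 2 : ℝ) ^ n) : m = n :=
  pow_right_injective₀ (by norm_num) (by norm_num) h

/-- point masses are determined by the two moments -/
lemma unique_point {x y : FreeCM Unit} (h2 : mom (1 / 2) x = mom (1 / 2) y)
    (h4 : mom (1 / 4) x = mom (1 / 4) y) (j : ℕ) (hx : ∀ w, 0 < x.1.coeff w → len w = j) :
    ∀ w, 0 < y.1.coeff w → len w = j := by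
  intro w hw
  let F : FreeMonoid Unit → ℝ := fun w =>
    (1 / 4) ^ len w + ((-2 * (1 / 2) ^ j) * (1 / 2) ^ len w + (1 / 4) ^ j * 1)
  have hF : ∀ w, F w = ((1 / 2) ^ len w - (1 / 2) ^ j) ^ 2 := by
    intro w
    show (1 / 4) ^ len w + ((-2 * (1 / 2) ^ j) * (1 / 2) ^ len w + (1 / 4) ^ j * 1) = _
    rw [pow_eq, pow_eq j]
    ring
  have hev : ∀ z : FreeCM Unit, ev F z.1 =
      mom (1 / 4) z + ((-2 * (1 / 2) ^ j) * mom (1 / 2) z + (1 / 4) ^ j * 1) := by
    intro z
    show ev (fun w => (1 / 4) ^ len w +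
      ((-2 * (1 / 2) ^ j) * (1 / 2) ^ len w + (1 / 4) ^ j * 1)) z.1 = _
    rw [ev_fun_add, ev_fun_add, ev_fun_smul, ev_fun_smul, sum_one]
    rfl
  have hx0 : ev F x.1 = 0 := by
    unfold ev
    refine Finset.sum_eq_zero fun v hv => ?_
    have hv' : 0 < x.1.coeff v :=
      lt_of_le_of_ne (coeff_nonneg x v) (Finsupp.mem_support_iff.mp hv).symm
    show x.1.coeff v * F v = 0
    rw [hF, hx v hv']
    simp
  have hy0 : ev F y.1 = 0 := by rw [hev, ← h2, ← h4, ← hev, hx0]
  have := supp_of_ev_zero F y (fun v _ => by rw [hF]; positivity) hy0 w hw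
  rw [hF] at this
  exact half_inj (sub_eq_zero.mp (pow_eq_zero_iff (two_ne_zero)|>.mp this))

/-- the analogue for two lengths `0`, `N`, among the distributions on lengths `≤ N` -/
lemma unique_edge {N : ℕ} {x y : FreeCM Unit} (h2 : mom (1 / 2) x = mom (1 / 2) y)
    (h4 : mom (1 / 4) x = mom (1 / 4) y) (hx : ∀ w, 0 < x.1.coeff w → len w = 0 ∨ len w = N)
    (hy : ∀ w, 0 < y.1.coeff w → len w ≤ N) :
    ∀ w, 0 < y.1.coeff w → len w = 0 ∨ len w = N := by
  intro w hw
  let F : FreeMonoid Unit → ℝ := fun w =>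
    (-1) * (1 / 4) ^ len w + ((1 + (1 / 2) ^ N) * (1 / 2) ^ len w + (-(1 / 2) ^ N) * 1)
  have hF : ∀ w, F w = (1 - (1 / 2) ^ len w) * ((1 / 2) ^ len w - (1 / 2) ^ N) := by
    intro w
    show (-1) * (1 / 4) ^ len w + ((1 + (1 / 2) ^ N) * (1 / 2) ^ len w + (-(1 / 2) ^ N) * 1) = _
    rw [pow_eq]
    ring
  have hev : ∀ z : FreeCM Unit, ev F z.1 =
      (-1) * mom (1 / 4) z + ((1 + (1 / 2) ^ N) * mom (1 / 2) z + (-(1 / 2) ^ N) * 1) := by
    intro z
    show ev (fun w => (-1) * (1 / 4) ^ len w +
      ((1 + (1 / 2) ^ N) * (1 / 2) ^ len w + (-(1 / 2) ^ N) * 1)) z.1 = _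
    rw [ev_fun_add, ev_fun_add, ev_fun_smul, ev_fun_smul, ev_fun_smul, sum_one]
    rfl
  have hx0 : ev F x.1 = 0 := by
    unfold ev
    refine Finset.sum_eq_zero fun v hv => ?_
    have hv' : 0 < x.1.coeff v :=
      lt_of_le_of_ne (coeff_nonneg x v) (Finsupp.mem_support_iff.mp hv).symm
    show x.1.coeff v * F v = 0
    rw [hF]
    rcases hx v hv' with h | h <;> rw [h] <;> simp
  have hy0 : ev F y.1 = 0 := by rw [hev, ← h2, ← h4, ← hev, hx0]
  have := supp_of_ev_zero F y (fun v hv => by
    rw [hF]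
    apply mul_nonneg
    · exact sub_nonneg.mpr (pow_le_one₀ (by norm_num) (by norm_num))
    · exact sub_nonneg.mpr (pow_le_pow_of_le_one (by norm_num) (by norm_num) (hy v hv))) hy0 w hw
  rw [hF] at this
  rcases mul_eq_zero.mp this with h | h
  · left
    apply half_inj
    rw [pow_zero]; linarith
  · right
    exact half_inj (sub_eq_zero.mp h)

/-- the word of length `n` -/
def ww (n : ℕ) : FreeMonoid Unit := FreeMonoid.ofList (List.replicate n ())

lemma len_ww (n : ℕ) : len (ww n) = n := by simp [len, ww]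

lemma eq_of_supp {x y : FreeCM Unit} {N : ℕ} (hN : 0 < N) (h2 : mom (1 / 2) x = mom (1 / 2) y)
    (hx : ∀ w, 0 < x.1.coeff w → len w = 0 ∨ len w = N)
    (hy : ∀ w, 0 < y.1.coeff w → len w = 0 ∨ len w = N) : x = y := by
  classical
  have key : ∀ (z : FreeCM Unit), (∀ w, 0 < z.1.coeff w → len w = 0 ∨ len w = N) →
      ∀ F : FreeMonoid Unit → ℝ, ev F z.1 = z.1.coeff (ww 0) * F (ww 0) +
        z.1.coeff (ww N) * F (ww N) := by
    intro z hz F
    have hsub : z.1.coeff.support ⊆ {ww 0, ww N} := by
      intro w hw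
      have hw' : 0 < z.1.coeff w :=
        lt_of_le_of_ne (coeff_nonneg z w) (Finsupp.mem_support_iff.mp hw).symm
      rcases hz w hw' with h | h
      · rw [Finset.mem_insert]; left; exact len_inj (by rw [h, len_ww])
      · rw [Finset.mem_insert, Finset.mem_singleton]; right; exact len_inj (by rw [h, len_ww])
    unfold ev
    rw [Finsupp.sum_of_support_subset _ hsub _ (by simp), Finset.sum_pair]
    intro h
    have := congrArg len h
    rw [len_ww, len_ww] at this
    omega
  have hne : (1 / 2 : ℝ) ^ N < 1 := pow_lt_one₀ (by norm_num) (by norm_num) hN.ne'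
  have x1 := key x hx (fun _ => 1)
  have y1 := key y hy (fun _ => 1)
  rw [sum_one] at x1 y1
  have x2 : mom (1 / 2) x = _ := key x hx (fun w => (1 / 2) ^ len w)
  have y2 : mom (1 / 2) y = _ := key y hy (fun w => (1 / 2) ^ len w)
  rw [len_ww, len_ww, pow_zero] at x2 y2
  rw [x2, y2] at h2
  have hNeq : x.1.coeff (ww N) = y.1.coeff (ww N) := by
    have h3 : (x.1.coeff (ww N) - y.1.coeff (ww N)) * (1 - (1 / 2) ^ N) = 0 := by
      linear_combination x1 * (-1) + y1 - h2 * (-1) * (-1)
    rcases mul_eq_zero.mp h3 with h | h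
    · linarith
    · linarith
  have h0eq : x.1.coeff (ww 0) = y.1.coeff (ww 0) := by linarith
  apply Subtype.ext
  apply MonoidAlgebra.ext
  apply Finsupp.ext
  intro w
  by_cases h0 : len w = 0
  · have : w = ww 0 := len_inj (by rw [h0, len_ww])
    rw [this, h0eq]
  by_cases h1 : len w = N
  · have : w = ww N := len_inj (by rw [h1, len_ww])
    rw [this, hNeq]
  have hx0 : x.1.coeff w = 0 := by
    by_contra hne
    rcases hx w (lt_of_le_of_ne (coeff_nonneg x w) (Ne.symm hne)) with h | h
    · exact h0 h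
    · exact h1 h
  have hy0 : y.1.coeff w = 0 := by
    by_contra hne
    rcases hy w (lt_of_le_of_ne (coeff_nonneg y w) (Ne.symm hne)) with h | h
    · exact h0 h
    · exact h1 h
  rw [hx0, hy0]

lemma eq_of_point {x y : FreeCM Unit} {j : ℕ} (hx : ∀ w, 0 < x.1.coeff w → len w = j)
    (hy : ∀ w, 0 < y.1.coeff w → len w = j) : x = y := by
  classical
  have key : ∀ (z : FreeCM Unit), (∀ w, 0 < z.1.coeff w → len w = j) → z = pt (ww j) := by
    intro z hz
    have hz0 : ∀ w, w ≠ ww j → z.1.coeff w = 0 := by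
      intro w hw
      by_contra hne
      exact hw (len_inj (by
        rw [hz w (lt_of_le_of_ne (coeff_nonneg z w) (Ne.symm hne)), len_ww]))
    have hsub : z.1.coeff.support ⊆ {ww j} := by
      intro w hw
      rw [Finset.mem_singleton]
      by_contra hne
      exact (Finsupp.mem_support_iff.mp hw) (hz0 w hne)
    have h1 : ev (fun _ => 1) z.1 = z.1.coeff (ww j) * 1 := by
      unfold ev
      rw [Finsupp.sum_of_support_subset _ hsub _ (by simp), Finset.sum_singleton]
    rw [sum_one, mul_one] at h1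
    apply Subtype.ext
    apply MonoidAlgebra.ext
    apply Finsupp.ext
    intro w
    show _ = (MonoidAlgebra.single (ww j) (1 : ℝ)).coeff w
    rw [MonoidAlgebra.coeff_single, Finsupp.single_apply]
    split
    · next h => rw [← h, ← h1]
    · next h => exact hz0 w (Ne.symm h)
  rw [key x hx, key y hy]

/-- pairs of equivalent distributions on lengths `≤ N` are related by `TT N` -/
lemma TT_of_synRel {N : ℕ} (hN : 0 < N) {x y : FreeCM Unit} (h : SynRel Lang x y)
    (hx : ∀ w, 0 < x.1.coeff w → len w ≤ N) (hy : ∀ w, 0 < y.1.coeff w → len w ≤ N) :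
    TT N x y := by
  rw [synRel_lang] at h
  obtain ⟨h2, h4⟩ := h
  have key : ∀ x y : FreeCM Unit, mom (1 / 2) x = mom (1 / 2) y → mom (1 / 4) x = mom (1 / 4) y →
      (∀ w, 0 < y.1.coeff w → len w ≤ N) → Zp N x → x = y := by
    rintro x y h2 h4 hy (hz | ⟨j, hj, hz⟩)
    · exact eq_of_supp hN h2 hz (unique_edge h2 h4 hz hy)
    · exact eq_of_point hz (unique_point h2 h4 j hz)
  by_cases h1 : Zp N x
  · exact Or.inl (key x y h2 h4 hy h1)
  · by_cases h3 : Zp N y
    · exact Or.inl (key y x h2.symm h4.symm hx h3).symm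
    · exact Or.inr ⟨h1, h3⟩

/-- The language is PFA-computable but its syntactic convex monoid is not finitely presentable. -/
theorem not_fp : ¬ FinitelyPresentable (Syn Lang) := by
  classical
  rintro ⟨G, hG, R, hR, q, hqs, hq1, hqm, hqc, hker⟩
  let π : FreeCM Unit → Syn Lang := Quotient.mk (synSetoid Lang)
  have hπ : ∀ x y, π x = π y ↔ SynRel Lang x y := fun x y => Quotient.eq (r := synSetoid Lang)
  have hπm : ∀ x y, π (x * y) = π x * π y := fun _ _ => rfl
  have hπ1 : π 1 = 1 := rfl
  have hπc : ∀ r x y, π (cc r x y) = cc r (π x) (π y) := fun _ _ _ => rfl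
  -- representatives of the generators
  have hrep : ∀ g : G, ∃ w : FreeCM Unit, π w = q (pt (FreeMonoid.of g)) := fun g =>
    Quotient.exists_rep _
  choose w hw using hrep
  -- `π ∘ lft w = q`
  have hτpt : ∀ u : FreeMonoid G, π (lft w (pt u)) = q (pt u) := by
    intro u
    induction u using FreeMonoid.inductionOn' with
    | one => rw [pt_one, lft_one, hπ1, hq1]
    | of_mul g u ih => rw [← pt_mul, lft_mul, hπm, hqm, lft_of, hw, ih]
  have hτ : ∀ x, π (lft w x) = q x := by
    intro x
    induction x using cc_induction with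
    | hpt u => exact hτpt u
    | hcc r x y hx hy => rw [lft_cc, hπc, hqc, hx, hy]
  -- a preimage of the generator `a`
  obtain ⟨v, hv⟩ := hqs (π aa)
  have hτv : lft w v = aa := by
    have h1 : π aa = π (lft w v) := by rw [hτ, hv]
    rw [hπ, synRel_lang] at h1
    have haa : ∀ u, 0 < aa.1.coeff u → len u = 1 := by
      intro u hu
      have : (MonoidAlgebra.single (FreeMonoid.of ()) (1 : ℝ)).coeff u ≠ 0 := hu.ne'
      rw [MonoidAlgebra.coeff_single, Finsupp.single_apply] at this
      split at this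
      · next h => rw [← h]; rfl
      · exact absurd rfl this
    exact (eq_of_point haa (unique_point h1.1 h1.2 1 haa)).symm
  -- a bound `N` for the lengths occurring in the relations
  have hbound : ∃ N : ℕ, 2 ≤ N ∧ ∀ p ∈ R, (∀ u, 0 < (lft w p.1).1.coeff u → len u ≤ N) ∧
      ∀ u, 0 < (lft w p.2).1.coeff u → len u ≤ N := by
    let B : FreeCM Unit → ℕ := fun x => x.1.coeff.support.sup len
    have hB : ∀ x : FreeCM Unit, ∀ u, 0 < x.1.coeff u → len u ≤ B x := fun x u hu =>
      Finset.le_sup (f := len) (Finsupp.mem_support_iff.mpr hu.ne')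
    obtain ⟨N, hN⟩ := (hR.image fun p => max (B (lft w p.1)) (B (lft w p.2))).bddAbove
    refine ⟨max N 2, le_max_right _ _, fun p hp => ?_⟩
    have h1 : max (B (lft w p.1)) (B (lft w p.2)) ≤ N := hN ⟨p, hp, rfl⟩
    refine ⟨fun u hu => ?_, fun u hu => ?_⟩
    · exact (hB _ u hu).trans ((le_max_left _ _).trans (h1.trans (le_max_left _ _)))
    · exact (hB _ u hu).trans ((le_max_right _ _).trans (h1.trans (le_max_left _ _)))
  obtain ⟨N, hN2, hN⟩ := hbound
  -- the pulled back congruence contains the relations, hence the kernel of `q`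
  have hcong : IsCongruence (fun x y => TT N (lft w x) (lft w y)) := by
    obtain ⟨h1, h2, h3⟩ := TT_congr N
    refine ⟨⟨fun x => h1.refl _, fun h => h1.symm h, fun h h' => h1.trans h h'⟩, ?_, ?_⟩
    · intro x x' y y' h h'
      rw [lft_mul, lft_mul]
      exact h2 _ _ _ _ h h'
    · intro r x x' y y' h h'
      rw [lft_cc, lft_cc]
      exact h3 r _ _ _ _ h h'
  have hsub : ∀ x y, q x = q y → TT N (lft w x) (lft w y) := by
    intro x y hxy
    refine (hker x y).mp hxy _ hcong fun p hp => ?_
    obtain ⟨h1, h2⟩ := hN p hp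
    apply TT_of_synRel (by omega) _ h1 h2
    rw [← hπ, hτ, hτ]
    exact (hker _ _).mpr fun T _ hT => hT p hp
  -- the two elements
  set t : ℝ := (1 / 2) ^ N with ht
  have ht0 : 0 < t := by positivity
  have ht1 : t ≤ 1 / 4 := by
    have : t ≤ (1 / 2 : ℝ) ^ 2 := pow_le_pow_of_le_one (by norm_num) (by norm_num) hN2
    norm_num at this
    linarith
  let r : unitInterval := ⟨1 / 2, by norm_num, by norm_num⟩
  let α : unitInterval := ⟨(1 - t + t ^ 2) / (2 - t), by
    constructor
    · apply div_nonneg <;> nlinarith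
    · rw [div_le_one (by linarith)]; nlinarith⟩
  let β : unitInterval := ⟨t * (2 - t) / (1 - t ^ 2), by
    constructor
    · apply div_nonneg <;> nlinarith
    · rw [div_le_one (by nlinarith)]; nlinarith⟩
  have hαv : (α : ℝ) = (1 - t + t ^ 2) / (2 - t) := rfl
  have hβv : (β : ℝ) = t * (2 - t) / (1 - t ^ 2) := rfl
  have hrv : (r : ℝ) = 1 / 2 := rfl
  let z : FreeCM G := cc r 1 (v ^ N)
  let z' : FreeCM G := cc α 1 (cc β v (v ^ (N + 1)))
  have hz : lft w z = cc r 1 (aa ^ N) := by
    show lft w (cc r 1 (v ^ N)) = _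
    rw [lft_cc, lft_one, lft_pow, hτv]
  have hz' : lft w z' = cc α 1 (cc β aa (aa ^ (N + 1))) := by
    show lft w (cc α 1 (cc β v (v ^ (N + 1)))) = _
    rw [lft_cc, lft_cc, lft_one, lft_pow, hτv]
  have h1t : (2 - t) ≠ 0 := by linarith
  have h2t : (1 - t ^ 2) ≠ 0 := by nlinarith
  have h4N : (1 / 4 : ℝ) ^ N = t ^ 2 := by rw [pow_eq]
  have h4N1 : (1 / 4 : ℝ) ^ (N + 1) = t ^ 2 / 4 := by rw [pow_succ, h4N]; ring
  have h2N1 : (1 / 2 : ℝ) ^ (N + 1) = t / 2 := by rw [pow_succ, ← ht]; ring
  have hqz : q z = q z' := by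
    rw [← hτ, ← hτ, hz, hz', hπ, synRel_lang]
    constructor
    · rw [mom_cc, mom_cc, mom_cc, mom_one, mom_pow, mom_pow, mom_aa, hαv, hβv, hrv, h2N1,
        ← ht]
      field_simp
      ring
    · rw [mom_cc, mom_cc, mom_cc, mom_one, mom_pow, mom_pow, mom_aa, hαv, hβv, hrv, h4N1, h4N]
      field_simp
      ring
  have hTT := hsub z z' hqz
  rw [hz, hz'] at hTT
  have haN : ∀ n : ℕ, aa ^ n = pt (ww n) := by
    intro n
    induction n with
    | zero => rfl
    | succ n ih =>
      rw [pow_succ, ih, aa, pt_mul]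
      congr 1
      apply len_inj
      rw [len_mul, len_ww, len_ww]
      rfl
  have hptc : ∀ (u s : FreeMonoid Unit), (pt u).1.coeff s = if u = s then 1 else 0 := by
    intro u s
    show (MonoidAlgebra.single u (1 : ℝ)).coeff s = _
    rw [MonoidAlgebra.coeff_single, Finsupp.single_apply]
  have hZ : Zp N (cc r 1 (aa ^ N)) := by
    left
    intro u hu
    rw [coeff_cc, haN, ← pt_one, hptc, hptc] at hu
    by_contra hcon
    push Not at hcon
    have e1 : (1 : FreeMonoid Unit) ≠ u := fun h => hcon.1 (by rw [← h]; rfl)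
    have e2 : ww N ≠ u := fun h => hcon.2 (by rw [← h, len_ww])
    rw [if_neg e1, if_neg e2] at hu
    simp at hu
  rcases hTT with heq | ⟨hno, -⟩
  · -- the coefficients at `a` differ
    have h1 := congrArg (fun x : FreeCM Unit => x.1.coeff (ww 1)) heq
    simp only [coeff_cc] at h1
    rw [haN, haN, show aa = pt (ww 1) from by rw [← haN, pow_one], ← pt_one, hptc, hptc, hptc,
      hptc] at h1
    have e1 : (1 : FreeMonoid Unit) ≠ ww 1 := fun h => by
      have := congrArg len h
      rw [len_ww] at this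
      exact absurd this (by decide)
    have e2 : ww N ≠ ww 1 := fun h => by
      have := congrArg len h
      rw [len_ww, len_ww] at this
      omega
    have e3 : ww (N + 1) ≠ ww 1 := fun h => by
      have := congrArg len h
      rw [len_ww, len_ww] at this
      omega
    rw [if_neg e1, if_neg e2, if_pos rfl, if_neg e3, hαv, hβv] at h1
    have h3 : (1 - (1 - t + t ^ 2) / (2 - t)) * (t * (2 - t) / (1 - t ^ 2)) = t := by
      field_simp
      ring
    have h4 : t = 0 := by
      rw [← h3]
      linarith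
    exact ht0.ne' h4
  · exact hno hZ

/-- **Main theorem.** There is a PFA-computable probabilistic language (over a one-letter
alphabet, with values in `[0,1]`) whose syntactic convex monoid is not finitely presentable. -/
theorem result : ∃ (S : Type) (_ : Finite S) (L : FreeMonoid S → ℝ),
    PFAComputable L ∧ ¬ FinitelyPresentable (Syn L) :=
  ⟨Unit, inferInstance, Lang, lang_computable, not_fp⟩

end Pool.Agent.Results.MP_492578_lc.NotFinitelyPresentable
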